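import Pool.Agent.helper25.TW.Spec2

set_option autoImplicit false

namespace TP.TW

open DP MeasureTheory Finset

private lemma SU2_ball (i : V) (r : ℕ) (F : Finset V) (hF : ∀ v ∈ F, sd v i ≤ r) :
    F ⊆ (Icc (i.1 - r) (i.1 + r)) ×ˢ (Icc (i.2 - r) (i.2 + r)) := by
  intro v hv
  have h := hF v hv
  unfold sd at h
  have h1 : (v.1 - i.1).natAbs ≤ r := le_trans (le_max_left _ _) h
  have h2 : (v.2 - i.2).natAbs ≤ r := le_trans (le_max_right _ _) h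
  rw [Finset.mem_product, Finset.mem_Icc, Finset.mem_Icc]
  refine ⟨⟨?_, ?_⟩, ⟨?_, ?_⟩⟩ <;> omega

private lemma SU2_card (i : V) (r : ℕ) :
    #((Icc (i.1 - r) (i.1 + r)) ×ˢ (Icc (i.2 - r) (i.2 + r)) : Finset V) = (2 * r + 1) ^ 2 := by
  rw [Finset.card_product, Int.card_Icc, Int.card_Icc, pow_two]
  have h1 : (i.1 + r + 1 - (i.1 - r)).toNat = 2 * r + 1 := by omega
  have h2 : (i.2 + r + 1 - (i.2 - r)).toNat = 2 * r + 1 := by omega
  rw [h1, h2]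

private lemma SU2_Pr_le_one (F : Set (V → Bool)) : Pr F ≤ 1 := by
  haveI : IsProbabilityMeasure P1 := by
    unfold P1
    infer_instance
  unfold Pr
  exact measureReal_le_one

theorem SU2 (vit : VIT_stmt) (srb : SRB_stmt) (gds : GDS_stmt) (dbl : DBL_stmt) : SU2_stmt := by
  classical
  obtain ⟨R, hR1, hSRB⟩ := srb
  obtain ⟨C, hC, hDBL⟩ := dbl
  have hRpos : (0 : ℝ) < R := by exact_mod_cast hR1
  refine ⟨1025 ^ 2 * R + 2 * C * R, by positivity, ?_⟩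
  intro n S hn hS
  obtain ⟨I, h, hV⟩ := vit R S hR1
  have hsum : (∑ i ∈ I, (4 : ℝ) ^ h i) ≤ R * #S := by
    have := hV.2.1
    exact_mod_cast this
  have hcard0 : (0 : ℝ) ≤ #S := Nat.cast_nonneg _
  rw [← Finset.sum_filter_add_sum_filter_not ((univ : Finset (Fin n × Fin n)).image phi)
    (fun v => ∀ i ∈ I, 512 * 2 ^ h i < sd v i)]
  set T := (univ : Finset (Fin n × Fin n)).image phi with hT
  have hrest : ∑ v₀ ∈ T.filter (fun v => ¬ ∀ i ∈ I, 512 * 2 ^ h i < sd v i), Pr (Ev fun c => BAD c S v₀)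
      ≤ 1025 ^ 2 * R * #S := by
    have h1 : ∑ v₀ ∈ T.filter (fun v => ¬ ∀ i ∈ I, 512 * 2 ^ h i < sd v i), Pr (Ev fun c => BAD c S v₀)
        ≤ ∑ v₀ ∈ T.filter (fun v => ¬ ∀ i ∈ I, 512 * 2 ^ h i < sd v i), (1 : ℝ) :=
      Finset.sum_le_sum fun v _ => SU2_Pr_le_one _
    rw [Finset.sum_const, nsmul_eq_mul, mul_one] at h1
    have h2 : T.filter (fun v => ¬ ∀ i ∈ I, 512 * 2 ^ h i < sd v i) ⊆
        I.biUnion fun i => ((Icc (i.1 - (512 * 2 ^ h i : ℕ)) (i.1 + (512 * 2 ^ h i : ℕ))) ×ˢ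
          (Icc (i.2 - (512 * 2 ^ h i : ℕ)) (i.2 + (512 * 2 ^ h i : ℕ))) : Finset V) := by
      intro v hv
      rw [Finset.mem_filter] at hv
      have hv2 := hv.2
      push Not at hv2
      obtain ⟨i, hi, hvi⟩ := hv2
      rw [Finset.mem_biUnion]
      refine ⟨i, hi, ?_⟩
      have := SU2_ball i (512 * 2 ^ h i) {v} (by
        intro w hw
        rw [Finset.mem_singleton] at hw
        rw [hw]
        exact hvi)
      exact this (Finset.mem_singleton_self v)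
    have h3 : #(T.filter (fun v => ¬ ∀ i ∈ I, 512 * 2 ^ h i < sd v i)) ≤ 1025 ^ 2 * ∑ i ∈ I, 4 ^ h i := by
      refine le_trans (Finset.card_le_card h2) ?_
      refine le_trans Finset.card_biUnion_le ?_
      rw [Finset.mul_sum]
      refine Finset.sum_le_sum fun i _ => ?_
      rw [SU2_card]
      have hp : 1 ≤ 2 ^ h i := Nat.one_le_two_pow
      have h4 : (4 : ℕ) ^ h i = (2 ^ h i) ^ 2 := by
        rw [← pow_mul, mul_comm, pow_mul]; norm_num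
      rw [h4, ← mul_pow]
      refine Nat.pow_le_pow_left ?_ 2
      omega
    have h5 : ((#(T.filter (fun v => ¬ ∀ i ∈ I, 512 * 2 ^ h i < sd v i)) : ℕ) : ℝ) ≤ 1025 ^ 2 * ∑ i ∈ I, (4 : ℝ) ^ h i := by
      exact_mod_cast h3
    calc _ ≤ _ := h1
      _ ≤ _ := h5
      _ ≤ 1025 ^ 2 * (R * #S) := by
        refine mul_le_mul_of_nonneg_left hsum (by norm_num)
      _ = _ := by ring
  have hgood : ∑ v₀ ∈ T.filter (fun v => ∀ i ∈ I, 512 * 2 ^ h i < sd v i), Pr (Ev fun c => BAD c S v₀)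
      ≤ 2 * C * R * #S := by
    set G := T.filter (fun v => ∀ i ∈ I, 512 * 2 ^ h i < sd v i) with hG
    have hGc : ∀ v₀ ∈ G, ∀ i ∈ I, 512 * 2 ^ h i < sd v₀ i := by
      intro v hv
      rw [hG, Finset.mem_filter] at hv
      exact hv.2
    have hD := hDBL (Nat.log 2 n + 1) G I h hGc
    have h1 : ∀ v₀ ∈ G, Pr (Ev fun c => BAD c S v₀) ≤
        2 * ∑ s ∈ range (Nat.log 2 n + 1), ∑ p ∈ Icc (-400 : ℤ) 400, ∑ q ∈ Icc (-400 : ℤ) 400, 7 / (2 : ℝ) ^ s *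
    ∑ i ∈ I.filter (fun i => sd (v₀.1 + 2 ^ s * p, v₀.2 + 2 ^ s * q) i ≤ 3 * 2 ^ s + 3 * 2 ^ h i), 2 ^ h i * (16 * 2 ^ h i / (2 : ℝ) ^ s) ^ 3 := by
      intro v₀ hv₀
      have hv₀T : v₀ ∈ T := by
        rw [hG, Finset.mem_filter] at hv₀
        exact hv₀.1
      refine le_trans (gds n R S I h v₀ hn hS hv₀T hV (hGc v₀ hv₀)) ?_
      rw [Finset.mul_sum]
      refine Finset.sum_le_sum fun s _ => ?_
      have h2 : ∀ k : Bool, ∑ p ∈ Icc (-400 : ℤ) 400, ∑ q ∈ Icc (-400 : ℤ) 400,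
          Pr (Ev fun c => SR c k S (v₀.1 + 2 ^ s * p, v₀.2 + 2 ^ s * q) (2 ^ s)) ≤
          ∑ p ∈ Icc (-400 : ℤ) 400, ∑ q ∈ Icc (-400 : ℤ) 400, 7 / (2 : ℝ) ^ s *
    ∑ i ∈ I.filter (fun i => sd (v₀.1 + 2 ^ s * p, v₀.2 + 2 ^ s * q) i ≤ 3 * 2 ^ s + 3 * 2 ^ h i), 2 ^ h i * (16 * 2 ^ h i / (2 : ℝ) ^ s) ^ 3 := by
        intro k
        refine Finset.sum_le_sum fun p _ => Finset.sum_le_sum fun q _ => ?_
        have h3 := hSRB S I h hV k (v₀.1 + 2 ^ s * p, v₀.2 + 2 ^ s * q) (2 ^ s) Nat.one_le_two_pow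
        have h4 : ((2 ^ s : ℕ) : ℝ) = (2 : ℝ) ^ s := by push_cast; ring
        rw [h4] at h3
        exact h3
      rw [Fintype.sum_bool, two_mul]
      exact add_le_add (h2 true) (h2 false)
    calc ∑ v₀ ∈ G, Pr (Ev fun c => BAD c S v₀) ≤ _ := Finset.sum_le_sum h1
      _ = 2 * _ := by rw [← Finset.mul_sum]
      _ ≤ 2 * (C * ∑ i ∈ I, (4 : ℝ) ^ h i) := mul_le_mul_of_nonneg_left hD (by norm_num)
      _ ≤ 2 * (C * (R * #S)) := by
        refine mul_le_mul_of_nonneg_left ?_ (by norm_num)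
        exact mul_le_mul_of_nonneg_left hsum hC.le
      _ = _ := by ring
  calc _ ≤ _ := add_le_add hgood hrest
    _ = _ := by ring

end TP.TW
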